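import Pool.Agent.H958.RL.Stm2

/-!
# Project RL, second part: numerics, `FK (e^((1+ε/2)c)) ≤ e^((1+ε)c)`
-/

set_option autoImplicit false

open Filter

namespace Pool.Agent.H784.RL.FKnum

open Pool.Agent.H958.RL

theorem ev_pow_exp {K b : ℝ} (hb : 0 < b) (n : ℕ) :
    ∀ᶠ x : ℝ in atTop, K * x ^ n ≤ Real.exp (b * x) := by
  have hK : 0 < |K| + 1 := by positivity
  have h := (isLittleO_pow_exp_pos_mul_atTop n hb).def (c := 1 / (|K| + 1)) (by positivity)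
  filter_upwards [h, eventually_ge_atTop (0 : ℝ)] with x hx hx0
  have h1 : 0 ≤ x ^ n := by positivity
  rw [Real.norm_of_nonneg h1, Real.norm_of_nonneg (Real.exp_nonneg _), one_div,
    inv_mul_eq_div, le_div_iff₀ hK] at hx
  have h2 : K * x ^ n ≤ |K| * x ^ n := mul_le_mul_of_nonneg_right (le_abs_self K) h1
  linarith

/-- the bound of `FK` in terms of a power of four -/
theorem FK_le (K n : ℕ) (hK : K ≤ 2 ^ (2 * n + 2)) : FK K ≤ 972 * (K * (n + 1) ^ 3) := by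
  have h1 : Nat.clog 2 K ≤ 2 * n + 2 := Nat.clog_le_of_le_pow hK
  have h2 : K ^ 2 + 1 ≤ 2 ^ (4 * n + 5) := by
    have h3 : K ^ 2 ≤ (2 ^ (2 * n + 2)) ^ 2 := Nat.pow_le_pow_left hK 2
    have h4 : (2 ^ (2 * n + 2)) ^ 2 = 2 ^ (4 * n + 4) := by
      rw [← pow_mul]
      congr 1
      ring
    have h5 : 2 ^ (4 * n + 5) = 2 * 2 ^ (4 * n + 4) := by
      rw [pow_succ]
      ring
    have h6 : 1 ≤ 2 ^ (4 * n + 4) := Nat.one_le_two_pow
    omega
  have h3 : Nat.clog 2 (K ^ 2 + 1) ≤ 4 * n + 5 := Nat.clog_le_of_le_pow h2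
  have h4 : fs K + 1 ≤ 9 * (n + 1) := by
    unfold fs
    omega
  have h5 : Nat.clog 2 (K ^ 2 + 1) + 1 ≤ 6 * (n + 1) := by omega
  unfold FK
  calc K * (2 * ((fs K + 1) ^ 2 * (Nat.clog 2 (K ^ 2 + 1) + 1)))
      ≤ K * (2 * ((9 * (n + 1)) ^ 2 * (6 * (n + 1)))) := by
        refine Nat.mul_le_mul_left _ (Nat.mul_le_mul_left _ (Nat.mul_le_mul ?_ h5))
        exact Nat.pow_le_pow_left h4 2
    _ = 972 * (K * (n + 1) ^ 3) := by ring

theorem exp_le_four : Real.exp (5 / 4) ≤ 4 := by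
  have h1 : (5 / 4 : ℝ) ≤ 2 * Real.log 2 := by
    have := Real.log_two_gt_d9
    linarith
  calc Real.exp (5 / 4) ≤ Real.exp (2 * Real.log 2) := Real.exp_le_exp.mpr h1
    _ = 4 := by
        rw [mul_comm, Real.exp_mul, Real.exp_log (by norm_num)]
        norm_num

theorem main : S_FKNUM := by
  intro ε hε hε2
  obtain ⟨a, ha⟩ := Filter.eventually_atTop.mp
    (ev_pow_exp (K := 1954 * 2 * 27) (b := ε / 2) (by linarith) 3)
  refine ⟨max 1 a, le_max_left _ _, fun c hc => ?_⟩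
  have hc1 : 1 ≤ c := (le_max_left _ _).trans hc
  have hca : a ≤ c := (le_max_right _ _).trans hc
  have hc0 : 0 ≤ c := by linarith
  obtain ⟨n, hn⟩ : ∃ n : ℕ, n = ⌈c⌉₊ := ⟨_, rfl⟩
  have hcn : c ≤ n := by rw [hn]; exact Nat.le_ceil c
  have hnc : (n : ℝ) < c + 1 := by rw [hn]; exact Nat.ceil_lt_add_one hc0
  obtain ⟨x, hx⟩ : ∃ x : ℝ, x = Real.exp ((1 + ε / 2) * c) := ⟨_, rfl⟩
  rw [← hx]
  have hx1 : 1 ≤ x := by
    rw [hx]
    exact Real.one_le_exp (by positivity)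
  obtain ⟨K, hK⟩ : ∃ K : ℕ, K = ⌈x⌉₊ := ⟨_, rfl⟩
  rw [← hK]
  have hKx : (K : ℝ) ≤ 2 * x := by
    have := Nat.ceil_lt_add_one (by linarith : 0 ≤ x)
    rw [← hK] at this
    linarith
  have hK1 : (1 : ℝ) ≤ K := by
    have := Nat.le_ceil x
    rw [← hK] at this
    linarith
  have hx4 : x ≤ 4 ^ n := by
    calc x ≤ Real.exp (n * (5 / 4)) := by
          rw [hx]
          refine Real.exp_le_exp.mpr ?_
          nlinarith
      _ = Real.exp (5 / 4) ^ n := Real.exp_nat_mul _ _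
      _ ≤ 4 ^ n := pow_le_pow_left₀ (Real.exp_nonneg _) exp_le_four n
  have hKn : K ≤ 2 ^ (2 * n + 2) := by
    have h1 : (K : ℝ) ≤ 2 ^ (2 * n + 2) := by
      have h2 : (2 : ℝ) ^ (2 * n + 2) = 4 * 4 ^ n := by
        rw [pow_add, pow_mul]
        norm_num
        ring
      rw [h2]
      have h3 : (0 : ℝ) < 4 ^ n := by positivity
      linarith
    exact_mod_cast h1
  have hFK := FK_le K n hKn
  have h1 : ((2 * FK K + 10 : ℕ) : ℝ) ≤ 1944 * (K * ((n : ℝ) + 1) ^ 3) + 10 := by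
    have h2 : 2 * FK K + 10 ≤ 1944 * (K * (n + 1) ^ 3) + 10 := by omega
    exact_mod_cast h2
  refine h1.trans ?_
  have hn1 : (1 : ℝ) ≤ (n : ℝ) + 1 := by
    have : (0 : ℝ) ≤ n := Nat.cast_nonneg n
    linarith
  have h2 : (1 : ℝ) ≤ K * ((n : ℝ) + 1) ^ 3 := by
    have := one_le_pow₀ hn1 (n := 3)
    calc (1 : ℝ) = 1 * 1 := by ring
      _ ≤ K * ((n : ℝ) + 1) ^ 3 := mul_le_mul hK1 this (by norm_num) (by linarith)
  have h3 : (K : ℝ) * ((n : ℝ) + 1) ^ 3 ≤ 2 * x * (3 * c) ^ 3 := by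
    refine mul_le_mul hKx ?_ (by positivity) (by linarith)
    exact pow_le_pow_left₀ (by linarith) (by linarith) 3
  have h4 := ha c hca
  calc 1944 * (K * ((n : ℝ) + 1) ^ 3) + 10 ≤ 1954 * (K * ((n : ℝ) + 1) ^ 3) := by linarith
    _ ≤ 1954 * (2 * x * (3 * c) ^ 3) := by linarith
    _ = (1954 * 2 * 27 * c ^ 3) * x := by ring
    _ ≤ Real.exp (ε / 2 * c) * x := mul_le_mul_of_nonneg_right h4 (by linarith)
    _ = Real.exp ((1 + ε) * c) := by
        rw [hx, ← Real.exp_add]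
        ring_nf

end Pool.Agent.H784.RL.FKnum
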