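import Pool.Agent.H958.RL.Stm2
import Pool.Graph.R_seed8.W657.RD.PBas

/-!
# Project RL, second part: the upper bound for all large `c`, combination of the two ranges
-/

set_option autoImplicit false

open Filter

namespace Pool.Agent.H784.RL.Upall

open Pool.Agent.W830.RD Pool.Agent.H958.RO Pool.Agent.H958.RL

theorem ev_loglog (ε : ℝ) (hε : 0 < ε) : ∀ᶠ n : ℕ in atTop,
    Real.log 100 + 2 * Real.log (Real.log n) ≤ ε * (Real.log (Real.log n)) ^ 2 ∧
      1 < Real.log n := by
  have h1 : Tendsto (fun n : ℕ => Real.log (n : ℝ)) atTop atTop :=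
    Real.tendsto_log_atTop.comp tendsto_natCast_atTop_atTop
  have h2 : Tendsto (fun n : ℕ => Real.log (Real.log (n : ℝ))) atTop atTop :=
    Real.tendsto_log_atTop.comp h1
  have h3 := h2.eventually (eventually_ge_atTop (max 1 ((Real.log 100 + 2) / ε)))
  filter_upwards [h3, h1.eventually (eventually_gt_atTop (1 : ℝ))] with n hn hn1
  refine ⟨?_, hn1⟩
  obtain ⟨y, hy⟩ : ∃ y : ℝ, y = Real.log (Real.log (n : ℝ)) := ⟨_, rfl⟩
  rw [← hy] at hn ⊢
  have hy1 : 1 ≤ y := (le_max_left _ _).trans hn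
  have hy2 : (Real.log 100 + 2) / ε ≤ y := (le_max_right _ _).trans hn
  rw [div_le_iff₀ hε] at hy2
  have hl : 0 ≤ Real.log 100 := Real.log_nonneg (by norm_num)
  have h4 : (Real.log 100 + 2) * y ≤ y * ε * y := mul_le_mul_of_nonneg_right hy2 (by linarith)
  have h5 : Real.log 100 * 1 ≤ Real.log 100 * y := mul_le_mul_of_nonneg_left hy1 hl
  nlinarith

theorem main (h1 : S_UPMID) (h2 : S_UP) : S_UPALL := by
  intro ε hε hε2
  obtain ⟨c0, hc0, h1⟩ := h1 ε hε hε2
  refine ⟨c0, hc0, fun η' hη' => ?_⟩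
  obtain ⟨N1, hN1⟩ := h1 η' hη'
  obtain ⟨N2, hN2⟩ := h2 η' hη'
  obtain ⟨N3, hN3⟩ := Filter.eventually_atTop.mp (ev_loglog ε hε)
  refine ⟨max N1 (max N2 (max N3 1)), fun n hn c hc hcn => ?_⟩
  have hn1 : N1 ≤ n := (le_max_left _ _).trans hn
  have hn2 : N2 ≤ n := ((le_max_left _ _).trans (le_max_right _ _)).trans hn
  have hn3 : N3 ≤ n :=
    (((le_max_left _ _).trans (le_max_right _ _)).trans (le_max_right _ _)).trans hn
  have hn4 : 1 ≤ n :=
    (((le_max_right _ _).trans (le_max_right _ _)).trans (le_max_right _ _)).trans hn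
  have hc1 : 1 ≤ c := hc0.trans hc
  rcases le_total c ((Real.log (Real.log n)) ^ 2) with h | h
  · exact hN1 n hn1 c hc h
  · have hup := hN2 n hn2 c hc1 hcn
    obtain ⟨h3, h4⟩ := hN3 n hn3
    have hnR : (1 : ℝ) ≤ n := by exact_mod_cast hn4
    have hnpos : (0 : ℝ) < n := by linarith
    have hp0 : 0 < c / n := by positivity
    have hp1 : c / n < 1 := by
      rw [div_lt_one hnpos]
      have := Real.log_le_sub_one_of_pos hnpos
      linarith
    refine le_trans ?_ hup
    refine (Pool.Agent.W657.RD.PBas.main (c / n) n hp0 hp1).2.2.1 _ _ (fun E _ hE => ?_)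
    refine lt_of_le_of_lt ?_ hE
    have h5 : 100 * Real.exp c * (Real.log n) ^ 2 =
        Real.exp (Real.log 100 + c + 2 * Real.log (Real.log n)) := by
      rw [Real.exp_add, Real.exp_add, Real.exp_log (by norm_num), two_mul, Real.exp_add,
        Real.exp_log (by linarith)]
      ring
    rw [h5]
    refine Real.exp_le_exp.mpr ?_
    have h6 : ε * (Real.log (Real.log n)) ^ 2 ≤ ε * c := mul_le_mul_of_nonneg_left h hε.le
    linarith

end Pool.Agent.H784.RL.Upall
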